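import Pool.Agent.Lib.MP_029589_gt.ExBA
import Pool.Agent.Lib.MP_029589_gt.Brg
import Pool.Agent.Lib.MP_029589_gt.Mod

/-! None of the three converses holds, neither in the plain nor in the A-hat version. -/

set_option autoImplicit false

namespace Pool.Agent.Results.MP_029589_gt.NoConverse

open Pool.Agent.Lib.MP_029589_gt

theorem result :
    (∃ (X : Mfd 23) (o : X.M → ℝ), CompactSpace X.M ∧ X.IsOrientation o ∧ Nonempty X.Metric ∧
      ∀ (g : X.Metric) (S : Set ℕ), 23 ∈ S → PropB S X g o ∧ ¬PropA S X g o) ∧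
    (∃ (X : Mfd 23) (o : X.M → ℝ), CompactSpace X.M ∧ X.IsOrientation o ∧ Nonempty X.Metric ∧
      ∀ (g : X.Metric) (S : Set ℕ), 23 ∈ S → PropC S X g o ∧ ¬PropB S X g o) ∧
    (∃ (X : Mfd 4) (o : X.M → ℝ), CompactSpace X.M ∧ X.IsOrientation o ∧ Nonempty X.Metric ∧
      ∀ (g : X.Metric) (S : Set ℕ), 4 ∈ S → PropD S X g o ∧ ¬PropC S X g o ∧ ¬PropA S X g o) := by
  refine ⟨?_, ⟨XX ⊤, fun _ => 1, inferInstance, oriZ ⊤, exists_metric _, fun g S hS =>
    ⟨(propC_iff tri_XX (by norm_num) (oriZ ⊤) hS).2 (enlargeable g),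
      fun H => not_hyperspherical g ((propB_iff tri_XX (by norm_num) (oriZ ⊤) hS).1 H)⟩⟩, ?_⟩
  · obtain ⟨X, o, _, ho, t, h⟩ := ex_BA
    exact ⟨X, o, ‹_›, ho, exists_metric _, fun g S hS =>
      ⟨(propB_iff t (by norm_num) ho hS).2 (h g).1,
        fun H => (h g).2 ((propA_iff t (by norm_num) ho hS).1 H)⟩⟩
  · obtain ⟨X, o, Φ, θ, ν, _, ho, m, f⟩ := exists_model4
    have t := f.tri (by simp)
    exact ⟨X, o, ‹_›, ho, exists_metric _, fun g S hS =>
      ⟨(propD_iff t (by norm_num) ho hS).2 (m.iso ho g),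
        fun H => m.not_enl ho g ((propC_iff t (by norm_num) ho hS).1 H),
        fun H => m.not_enl ho g fun ε hε => (hyperspherical_of_hypereuclidean
          ((propA_iff t (by norm_num) ho hS).1 H)).imp fun _ h => h ε hε⟩⟩

end Pool.Agent.Results.MP_029589_gt.NoConverse
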